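import Mathlib

/-!
Lucas sequences with parameters `P`, `Q`: addition formulas, `p`-adic growth.
-/

namespace Pool.Agent.H59.UnitSeq

/-- the Lucas sequence `U` -/
def U (P Q : ℤ) : ℕ → ℤ
  | 0 => 0
  | 1 => 1
  | (n + 2) => P * U P Q (n + 1) - Q * U P Q n

theorem U_zero (P Q : ℤ) : U P Q 0 = 0 := rfl
theorem U_one (P Q : ℤ) : U P Q 1 = 1 := rfl
theorem U_rec (P Q : ℤ) (n : ℕ) : U P Q (n + 2) = P * U P Q (n + 1) - Q * U P Q n := rfl

theorem U_add_one (P Q : ℤ) (m n : ℕ) :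
    U P Q (m + n + 1) = U P Q (m + 1) * U P Q (n + 1) - Q * (U P Q m * U P Q n) := by
  induction n using Nat.twoStepInduction with
  | zero => simp [U]
  | one => simp [U]; ring
  | more n h1 h2 =>
    have e1 : m + (n + 2) + 1 = (m + n + 1) + 2 := by omega
    have e2 : m + n + 1 + 1 = m + (n + 1) + 1 := by omega
    have e3 : n + 2 + 1 = (n + 1) + 2 := by omega
    have e4 : n + 1 + 1 = n + 2 := by omega
    rw [e1, U_rec, e2, h1, h2, e3, U_rec P Q (n + 1), e4, U_rec P Q n]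
    ring

theorem U_add (P Q : ℤ) (m n : ℕ) :
    U P Q (m + n) = U P Q (m + 1) * U P Q n + U P Q m * U P Q (n + 1)
      - P * (U P Q m * U P Q n) := by
  induction n using Nat.twoStepInduction with
  | zero => simp [U]
  | one => simp [U]; ring
  | more n h1 h2 =>
    have e1 : m + (n + 2) = (m + n) + 2 := by omega
    have e2 : m + n + 1 = m + (n + 1) := by omega
    have e3 : n + 2 + 1 = (n + 1) + 2 := by omega
    have e4 : n + 1 + 1 = n + 2 := by omega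
    rw [e1, U_rec, e2, h1, h2, e3, U_rec P Q (n + 1), e4, U_rec P Q n]
    ring

theorem U_mul_aux (P Q : ℤ) (A k : ℕ) :
    (∃ z, U P Q (k * A + 1) = U P Q (A + 1) ^ k + U P Q A * z) ∧
    (∃ y, U P Q ((k + 1) * A) =
      U P Q A * (((k + 1 : ℕ) : ℤ) * U P Q (A + 1) ^ k + U P Q A * y)) := by
  induction k with
  | zero =>
    refine ⟨⟨0, by simp [U]⟩, ⟨0, by simp⟩⟩
  | succ k ih =>
    obtain ⟨⟨z, hz⟩, ⟨y, hy⟩⟩ := ih
    have e1 : (k + 1) * A + 1 = k * A + A + 1 := by ring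
    have e2 : (k + 1 + 1) * A = (k + 1) * A + A := by ring
    have h1 : U P Q ((k + 1) * A + 1) =
        U P Q (A + 1) ^ (k + 1) + U P Q A * (z * U P Q (A + 1) - Q * U P Q (k * A)) := by
      rw [e1, U_add_one, hz]; ring
    refine ⟨⟨_, h1⟩, ⟨(z * U P Q (A + 1) - Q * U P Q (k * A)) + y * U P Q (A + 1)
      - P * (((k + 1 : ℕ) : ℤ) * U P Q (A + 1) ^ k + U P Q A * y), ?_⟩⟩
    rw [e2, U_add, h1, hy]
    push_cast
    ring

theorem U_dvd_mul (P Q : ℤ) (A k : ℕ) : U P Q A ∣ U P Q (k * A) := by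
  cases k with
  | zero => simp [U]
  | succ k =>
    obtain ⟨_, ⟨y, hy⟩⟩ := U_mul_aux P Q A k
    exact ⟨_, hy⟩

theorem U_coprime {P Q : ℤ} (hQ : IsUnit Q) (n : ℕ) : IsCoprime (U P Q n) (U P Q (n + 1)) := by
  induction n with
  | zero => rw [U_zero, U_one]; exact isCoprime_one_right
  | succ n ih =>
    rw [U_rec]
    have h1 : IsCoprime (U P Q (n + 1)) (Q * U P Q n) :=
      IsCoprime.mul_right (isCoprime_comm.1 (IsCoprime.of_isCoprime_of_dvd_left isCoprime_one_left (isUnit_iff_dvd_one.1 hQ))) ih.symm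
    have h2 : P * U P Q (n + 1) - Q * U P Q n = -(Q * U P Q n) + U P Q (n + 1) * P := by ring
    rw [h2]
    exact (IsCoprime.neg_right h1).add_mul_left_right P

theorem lte {P Q : ℤ} (hQ : IsUnit Q) {p : ℕ} (hp : p.Prime) (j : ℕ) :
    ∀ (A c k : ℕ), (p : ℤ) ^ 2 ∣ U P Q A → ¬ (p : ℤ) ^ c ∣ U P Q A → ¬ p ^ (j + 1) ∣ k →
      ¬ (p : ℤ) ^ (c + j) ∣ U P Q (k * A) := by
  have hpZ : Prime (p : ℤ) := Nat.prime_iff_prime_int.1 hp
  have hstep : ∀ (A c k j : ℕ), (p : ℤ) ^ 2 ∣ U P Q A → ¬ (p : ℤ) ^ c ∣ U P Q A → ¬ p ∣ k →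
      ¬ (p : ℤ) ^ (c + j) ∣ U P Q (k * A) := by
    intro A c k j h2 hc hk hdiv
    cases k with
    | zero => exact hk (dvd_zero p)
    | succ k =>
      obtain ⟨_, ⟨y, hy⟩⟩ := U_mul_aux P Q A k
      have hpT : (p : ℤ) ∣ U P Q A := (dvd_pow_self _ (by norm_num)).trans h2
      have hpS : ¬ (p : ℤ) ∣ U P Q (A + 1) := by
        intro h
        have := (U_coprime (P := P) hQ A).isUnit_of_dvd' hpT h
        exact hpZ.not_isUnit this
      have hw : ¬ (p : ℤ) ∣ ((k + 1 : ℕ) : ℤ) * U P Q (A + 1) ^ k + U P Q A * y := by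
        intro h
        have h3 := (dvd_add_left (hpT.mul_right y)).1 h
        rcases hpZ.dvd_or_dvd h3 with h4 | h4
        · exact hk (by exact_mod_cast h4)
        · exact hpS (hpZ.dvd_of_dvd_pow h4)
      rw [hy] at hdiv
      have hcop : IsCoprime ((p : ℤ) ^ (c + j))
          (((k + 1 : ℕ) : ℤ) * U P Q (A + 1) ^ k + U P Q A * y) :=
        IsCoprime.pow_left ((Prime.coprime_iff_not_dvd hpZ).2 hw)
      have h5 := hcop.dvd_of_dvd_mul_right hdiv
      exact hc ((pow_dvd_pow _ (Nat.le_add_right c j)).trans h5)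
  induction j with
  | zero =>
    intro A c k h2 hc hk
    rw [zero_add, pow_one] at hk
    exact hstep A c k 0 h2 hc hk
  | succ j ih =>
    intro A c k h2 hc hk
    by_cases hpk : p ∣ k
    · obtain ⟨k', rfl⟩ := hpk
      have hk' : ¬ p ^ (j + 1) ∣ k' := by
        intro h
        apply hk
        rw [pow_succ' p (j + 1)]
        exact Nat.mul_dvd_mul_left p h
      obtain ⟨r, rfl⟩ : ∃ r, p = r + 1 := ⟨p - 1, (Nat.succ_pred_eq_of_pos hp.pos).symm⟩
      obtain ⟨_, ⟨y, hy⟩⟩ := U_mul_aux P Q A r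
      obtain ⟨T', hT'⟩ := h2
      have hpT : ((r + 1 : ℕ) : ℤ) ∣ U P Q A := by
        rw [hT']; exact (dvd_pow_self _ (by norm_num)).mul_right _
      have hpS : ¬ ((r + 1 : ℕ) : ℤ) ∣ U P Q (A + 1) := by
        intro h
        have := (U_coprime (P := P) hQ A).isUnit_of_dvd' hpT h
        exact hpZ.not_isUnit this
      have hw : ¬ ((r + 1 : ℕ) : ℤ) ∣ U P Q (A + 1) ^ r + ((r + 1 : ℕ) : ℤ) * (T' * y) := by
        intro h
        have h3 := (dvd_add_left (dvd_mul_right _ _)).1 h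
        exact hpS (hpZ.dvd_of_dvd_pow h3)
      have hfac : U P Q ((r + 1) * A) = U P Q A * (((r + 1 : ℕ) : ℤ) *
          (U P Q (A + 1) ^ r + ((r + 1 : ℕ) : ℤ) * (T' * y))) := by
        rw [hy]
        have : U P Q A * y = ((r + 1 : ℕ) : ℤ) * (((r + 1 : ℕ) : ℤ) * (T' * y)) := by
          rw [hT']; ring
        rw [this]; ring
      have hnot : ¬ ((r + 1 : ℕ) : ℤ) ^ (c + 1) ∣ U P Q ((r + 1) * A) := by
        intro h
        rw [hfac] at h
        have h6 : ((r + 1 : ℕ) : ℤ) * ((r + 1 : ℕ) : ℤ) ^ c ∣ ((r + 1 : ℕ) : ℤ) *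
            (U P Q A * (U P Q (A + 1) ^ r + ((r + 1 : ℕ) : ℤ) * (T' * y))) := by
          have e1 : ((r + 1 : ℕ) : ℤ) * ((r + 1 : ℕ) : ℤ) ^ c = ((r + 1 : ℕ) : ℤ) ^ (c + 1) := by
            rw [pow_succ']
          rw [e1]
          refine h.trans (dvd_of_eq ?_)
          ring
        have h7 := (mul_dvd_mul_iff_left hpZ.ne_zero).1 h6
        have hcop : IsCoprime (((r + 1 : ℕ) : ℤ) ^ c)
            (U P Q (A + 1) ^ r + ((r + 1 : ℕ) : ℤ) * (T' * y)) :=
          IsCoprime.pow_left ((Prime.coprime_iff_not_dvd hpZ).2 hw)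
        exact hc (hcop.dvd_of_dvd_mul_right h7)
      have h2' : ((r + 1 : ℕ) : ℤ) ^ 2 ∣ U P Q ((r + 1) * A) :=
        (Dvd.intro T' hT'.symm).trans (U_dvd_mul P Q A (r + 1))
      have := ih ((r + 1) * A) (c + 1) k' h2' hnot hk'
      have e2 : k' * ((r + 1) * A) = (r + 1) * k' * A := by ring
      have e3 : c + 1 + j = c + (j + 1) := by ring
      rwa [e2, e3] at this
    · exact hstep A c k (j + 1) h2 hc hpk

theorem exists_period {P Q : ℤ} (hQ : IsUnit Q) (N : ℕ) (hN : 0 < N) :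
    ∃ z : ℕ, 1 ≤ z ∧ (N : ℤ) ∣ U P Q z := by
  have : NeZero N := ⟨hN.ne'⟩
  set f : ℕ → ZMod N × ZMod N := fun m => ((U P Q m : ZMod N), (U P Q (m + 1) : ZMod N)) with hf
  have hback : ∀ x y, f (x + 1) = f (y + 1) → f x = f y := by
    intro x y h
    have h1 : (U P Q (x + 1) : ZMod N) = (U P Q (y + 1) : ZMod N) := congrArg Prod.fst h
    have h2 : (U P Q (x + 2) : ZMod N) = (U P Q (y + 2) : ZMod N) := congrArg Prod.snd h
    have h3 : ((Q : ℤ) : ZMod N) * (U P Q x : ZMod N) = ((Q : ℤ) : ZMod N) * (U P Q y : ZMod N) := by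
      have e1 : ∀ n, ((Q : ℤ) : ZMod N) * (U P Q n : ZMod N) =
          (P : ZMod N) * (U P Q (n + 1) : ZMod N) - (U P Q (n + 2) : ZMod N) := by
        intro n
        rw [U_rec]; push_cast; ring
      rw [e1, e1, h1, h2]
    have hQ' : IsUnit ((Q : ℤ) : ZMod N) := by
      have := hQ.map (Int.castRingHom (ZMod N))
      simpa using this
    have h4 := hQ'.mul_left_cancel h3
    exact Prod.ext h4 h1
  have hback2 : ∀ x e, f x = f (x + e) → f 0 = f e := by
    intro x e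
    induction x with
    | zero => intro h; simpa using h
    | succ x ih =>
      intro h
      apply ih
      apply hback
      rw [h]
      congr 1
      omega
  obtain ⟨x, y, hxy, hfxy⟩ := Finite.exists_ne_map_eq_of_infinite f
  have key : ∀ x y, x < y → f x = f y → ∃ z : ℕ, 1 ≤ z ∧ (N : ℤ) ∣ U P Q z := by
    intro x y hlt h
    obtain ⟨e, rfl⟩ := Nat.exists_eq_add_of_lt hlt
    have h1 := hback2 x (e + 1) (by rw [h]; rfl)
    refine ⟨e + 1, by omega, ?_⟩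
    have h2 : (U P Q 0 : ZMod N) = (U P Q (e + 1) : ZMod N) := congrArg Prod.fst h1
    rw [U_zero] at h2
    rw [← ZMod.intCast_zmod_eq_zero_iff_dvd] 
    rw [← h2]; simp
  rcases lt_or_gt_of_ne hxy with h | h
  · exact key x y h hfxy
  · exact key y x h hfxy.symm

/-- the `p`-part of `U t` is at most a constant times `t` -/
theorem ppart_le {P Q : ℤ} (hQ : IsUnit Q) (hU : ∀ n, 1 ≤ n → U P Q n ≠ 0)
    {p : ℕ} (hp : p.Prime) :
    ∃ C : ℕ, 1 ≤ C ∧ ∀ t, 1 ≤ t → ∀ e, (p : ℤ) ^ e ∣ U P Q t → p ^ e ≤ C * t := by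
  obtain ⟨z, hz1, hz⟩ := exists_period (P := P) hQ (p ^ 2) (pow_pos hp.pos 2)
  have hz' : (p : ℤ) ^ 2 ∣ U P Q z := by exact_mod_cast hz
  have hz0 := hU z hz1
  obtain ⟨c, hc⟩ : ∃ c : ℕ, ¬ (p : ℤ) ^ c ∣ U P Q z := by
    refine ⟨(U P Q z).natAbs, ?_⟩
    intro h
    have h1 : p ^ (U P Q z).natAbs ∣ (U P Q z).natAbs := by
      have := Int.natAbs_dvd_natAbs.2 h
      rwa [Int.natAbs_pow, Int.natAbs_natCast] at this
    have h2 := Nat.le_of_dvd (Int.natAbs_pos.2 hz0) h1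
    have h3 : (U P Q z).natAbs < p ^ (U P Q z).natAbs := Nat.lt_pow_self hp.one_lt
    omega
  refine ⟨p ^ c, Nat.one_le_pow _ _ hp.pos, ?_⟩
  intro t ht e he
  have hfac : ∃ j, ¬ p ^ (j + 1) ∣ t ∧ p ^ j ∣ t := by
    refine ⟨t.factorization p, ?_, Nat.ordProj_dvd t p⟩
    exact Nat.pow_succ_factorization_not_dvd (by omega) hp
  obtain ⟨j, hj1, hj2⟩ := hfac
  have h1 := lte (P := P) hQ hp j z c t hz' hc hj1
  have h2 : (p : ℤ) ^ e ∣ U P Q (t * z) := by
    rw [mul_comm]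
    exact he.trans (U_dvd_mul P Q t z)
  have h3 : e < c + j := by
    by_contra hcon
    push Not at hcon
    exact h1 ((pow_dvd_pow _ hcon).trans h2)
  calc p ^ e ≤ p ^ (c + j) := Nat.pow_le_pow_right hp.pos h3.le
    _ = p ^ c * p ^ j := by rw [pow_add]
    _ ≤ p ^ c * t := Nat.mul_le_mul_left _ (Nat.le_of_dvd (by omega) hj2)

end Pool.Agent.H59.UnitSeq
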