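import Mathlib
import Pool.Agent.H59.UnitSeq.A

/-!
Many large primes divide `U (3 ^ M * w)` (for `Q = -1`) and `V (3 ^ M * w)` (for `Q = 1`).
-/

namespace Pool.Agent.H59.UnitSeq

open Finset Filter

/-- the companion Lucas sequence -/
def V (P Q : ℤ) (n : ℕ) : ℤ := 2 * U P Q (n + 1) - P * U P Q n

theorem U_two_mul (P Q : ℤ) (A : ℕ) : U P Q (2 * A) = U P Q A * V P Q A := by
  rw [two_mul, U_add, V]; ring

theorem U_two_mul_add_one (P Q : ℤ) (A : ℕ) :
    U P Q (2 * A + 1) = U P Q (A + 1) ^ 2 - Q * U P Q A ^ 2 := by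
  rw [two_mul, U_add_one]; ring

theorem norm_eq (P Q : ℤ) (A : ℕ) :
    U P Q (A + 1) ^ 2 - P * U P Q (A + 1) * U P Q A + Q * U P Q A ^ 2 = Q ^ A := by
  induction A with
  | zero => simp [U]
  | succ A ih =>
    rw [U_rec, pow_succ Q A, ← ih]; ring

theorem U_three_mul (P Q : ℤ) (A : ℕ) :
    U P Q (3 * A) = U P Q A * ((P ^ 2 - 4 * Q) * U P Q A ^ 2 + 3 * Q ^ A) := by
  have e : 3 * A = 2 * A + A := by ring
  rw [e, U_add, U_two_mul_add_one, U_two_mul, V, ← norm_eq P Q A]; ring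

theorem U_three_mul_add_one (P Q : ℤ) (A : ℕ) :
    U P Q (3 * A + 1) = U P Q (A + 1) ^ 3 - 3 * Q * U P Q (A + 1) * U P Q A ^ 2
      + P * Q * U P Q A ^ 3 := by
  have e : 3 * A + 1 = 2 * A + A + 1 := by ring
  rw [e, U_add_one, U_two_mul_add_one, U_two_mul, V]; ring

theorem V_three_mul (P Q : ℤ) (A : ℕ) :
    V P Q (3 * A) = V P Q A * (V P Q A ^ 2 - 3 * Q ^ A) := by
  rw [V, U_three_mul_add_one, U_three_mul, ← norm_eq P Q A, V]; ring

theorem V_rec (P Q : ℤ) (n : ℕ) : V P Q (n + 2) = P * V P Q (n + 1) - Q * V P Q n := by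
  have e1 : n + 2 + 1 = (n + 1) + 2 := by ring
  have e2 : n + 1 + 1 = n + 2 := by ring
  rw [V, V, V, e1, U_rec P Q (n + 1), e2, U_rec P Q n]; ring

/-- identity for `Q = 1` -/
theorem add_eq_V {P : ℤ} {u : ℕ → ℤ} (hu : ∀ m, u (m + 2) = P * u (m + 1) - 1 * u m) (t : ℕ) :
    ∀ b, u (b + 2 * t) + u b = V P 1 t * u (b + t) := by
  induction t using Nat.twoStepInduction with
  | zero => intro b; simp [V, U]; ring
  | one => 
    intro b
    have h := hu b
    have e1 : b + 2 * 1 = b + 2 := by ring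
    rw [e1, h, V, U_rec, U_one, U_zero]; ring
  | more n h1 h2 =>
    intro b
    have e1 : b + 2 * (n + 2) = (b + 1 + 2 * (n + 1)) + 1 := by ring
    have a1 := h2 (b + 1)
    have a2 := h1 (b + 2)
    have r1 : u (b + 2 * (n + 2)) = P * u (b + 1 + 2 * (n + 1)) - 1 * u (b + 2 + 2 * n) := by
      have := hu (b + 2 + 2 * n)
      have e2 : b + 2 + 2 * n + 2 = b + 2 * (n + 2) := by ring
      have e3 : b + 2 + 2 * n + 1 = b + 1 + 2 * (n + 1) := by ring
      rwa [e2, e3] at this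
    have r2 := hu b
    have e4 : b + 1 + (n + 1) = b + (n + 2) := by ring
    have e5 : b + 2 + n = b + (n + 2) := by ring
    rw [e4] at a1
    rw [e5] at a2
    rw [V_rec, r1]
    have r3 : u b = P * u (b + 1) - u (b + 2) := by rw [r2]; ring
    linear_combination P * a1 - a2 + r3

/-- identity for `Q = -1` -/
theorem sub_eq_U {P : ℤ} {u : ℕ → ℤ} (hu : ∀ m, u (m + 2) = P * u (m + 1) - (-1) * u m) (t : ℕ) :
    ∀ b, u (b + 2 * t) - (-1) ^ t * u b = U P (-1) t * (2 * u (b + t + 1) - P * u (b + t)) := by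
  induction t using Nat.twoStepInduction with
  | zero => intro b; simp [U]
  | one => 
    intro b
    have h := hu b
    have e1 : b + 2 * 1 = b + 2 := by ring
    have e2 : b + 1 + 1 = b + 2 := by ring
    rw [e1, e2, h, U_one]; ring
  | more n h1 h2 =>
    intro b
    have a1 := h2 (b + 1)
    have a2 := h1 (b + 2)
    have r1 : u (b + 2 * (n + 2)) = P * u (b + 1 + 2 * (n + 1)) - (-1) * u (b + 2 + 2 * n) := by
      have := hu (b + 2 + 2 * n)
      have e2 : b + 2 + 2 * n + 2 = b + 2 * (n + 2) := by ring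
      have e3 : b + 2 + 2 * n + 1 = b + 1 + 2 * (n + 1) := by ring
      rwa [e2, e3] at this
    have r2 := hu b
    have e4 : b + 1 + (n + 1) = b + (n + 2) := by ring
    have e5 : b + 2 + n = b + (n + 2) := by ring
    rw [e4] at a1
    rw [e5] at a2
    rw [U_rec, r1]
    have r3 : u b = u (b + 2) - P * u (b + 1) := by rw [r2]; ring
    have e6 : (-1 : ℤ) ^ (n + 2) = (-1) ^ n := by rw [pow_add]; norm_num
    have e7 : (-1 : ℤ) ^ (n + 1) = -(-1) ^ n := by rw [pow_succ]; ring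
    rw [e7] at a1
    rw [e6]
    linear_combination P * a1 + a2 - (-1) ^ n * r3

/-- the two admissible cases -/
def Good (P Q : ℤ) : Prop := (Q = -1 ∧ 1 ≤ P) ∨ (Q = 1 ∧ 3 ≤ P)

theorem Good.isUnit {P Q : ℤ} (h : Good P Q) : IsUnit Q := by
  rcases h with ⟨rfl, _⟩ | ⟨rfl, _⟩
  · exact isUnit_one.neg
  · exact isUnit_one

theorem U_pos_neg {P : ℤ} (hP : 1 ≤ P) (n : ℕ) :
    0 < U P (-1) (n + 1) ∧ 0 ≤ U P (-1) n := by
  induction n with
  | zero => simp [U]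
  | succ n ih =>
    refine ⟨?_, ih.1.le⟩
    rw [U_rec]
    nlinarith [ih.1, ih.2, mul_le_mul_of_nonneg_right hP ih.1.le]

theorem U_mono_pos {P : ℤ} (hP : 3 ≤ P) (n : ℕ) :
    0 ≤ U P 1 n ∧ U P 1 n < U P 1 (n + 1) := by
  induction n with
  | zero => simp [U]
  | succ n ih =>
    refine ⟨by linarith [ih.1, ih.2], ?_⟩
    rw [U_rec]
    have : 3 * U P 1 (n + 1) ≤ P * U P 1 (n + 1) :=
      mul_le_mul_of_nonneg_right hP (by linarith [ih.1, ih.2])
    linarith [ih.1, ih.2]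

theorem Good.ne_zero {P Q : ℤ} (h : Good P Q) : ∀ n, 1 ≤ n → U P Q n ≠ 0 := by
  intro n hn
  obtain ⟨m, rfl⟩ := Nat.exists_eq_add_of_le' hn
  rcases h with ⟨rfl, hP⟩ | ⟨rfl, hP⟩
  · exact (U_pos_neg hP m).1.ne'
  · have := U_mono_pos hP m
    exact (lt_of_le_of_lt this.1 this.2).ne'

/-- a uniform constant for all primes up to `K` -/
theorem ppart_le' {P Q : ℤ} (h : Good P Q) (K : ℕ) :
    ∃ C : ℕ, 1 ≤ C ∧ ∀ p, p.Prime → p ≤ K → ∀ t, 1 ≤ t → ∀ e, (p : ℤ) ^ e ∣ U P Q t →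
      p ^ e ≤ C * t := by
  have h1 : ∀ p : ℕ, ∃ C : ℕ, 1 ≤ C ∧ (p.Prime → ∀ t, 1 ≤ t → ∀ e, (p : ℤ) ^ e ∣ U P Q t →
      p ^ e ≤ C * t) := by
    intro p
    by_cases hp : p.Prime
    · obtain ⟨C, hC1, hC⟩ := ppart_le h.isUnit h.ne_zero hp
      exact ⟨C, hC1, fun _ => hC⟩
    · exact ⟨1, le_rfl, fun h => absurd h hp⟩
  choose f hf1 hf2 using h1
  refine ⟨∑ p ∈ range (K + 1), f p, ?_, ?_⟩
  · exact (hf1 0).trans (single_le_sum (f := f) (fun _ _ => Nat.zero_le _) (by simp))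
  · intro p hp hpK t ht e he
    refine (hf2 p hp t ht e he).trans (Nat.mul_le_mul_right _ ?_)
    exact single_le_sum (f := f) (fun _ _ => Nat.zero_le _) (by simp; omega)

/-- a `K`-smooth divisor of `U t` is small -/
theorem smooth_le {P Q : ℤ} {K C : ℕ} (hC1 : 1 ≤ C)
    (hC : ∀ p, p.Prime → p ≤ K → ∀ t, 1 ≤ t → ∀ e, (p : ℤ) ^ e ∣ U P Q t → p ^ e ≤ C * t)
    (t W : ℕ) (ht : 1 ≤ t) (hW0 : W ≠ 0) (hW : (W : ℤ) ∣ U P Q t)
    (hs : ∀ q, q.Prime → q ∣ W → q ≤ K) : W ≤ (C * t) ^ K := by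
  have h1 : ∀ q ∈ W.primeFactors, q ^ W.factorization q ≤ C * t := by
    intro q hq
    have hqp := Nat.prime_of_mem_primeFactors hq
    have hqW := Nat.dvd_of_mem_primeFactors hq
    apply hC q hqp (hs q hqp hqW) t ht
    have : q ^ W.factorization q ∣ W := Nat.ordProj_dvd W q
    exact (by exact_mod_cast this : ((q : ℤ) ^ W.factorization q) ∣ (W : ℤ)).trans hW
  have h2 : W.primeFactors.card ≤ K := by
    have : W.primeFactors ⊆ Ioc 0 K := by
      intro q hq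
      rw [mem_Ioc]
      exact ⟨(Nat.prime_of_mem_primeFactors hq).pos,
        hs q (Nat.prime_of_mem_primeFactors hq) (Nat.dvd_of_mem_primeFactors hq)⟩
    have := card_le_card this
    simpa using this
  calc W = ∏ q ∈ W.primeFactors, q ^ W.factorization q := (Nat.prod_factorization_pow_eq_self hW0).symm
    _ ≤ ∏ _q ∈ W.primeFactors, (C * t) := Finset.prod_le_prod' h1
    _ = (C * t) ^ W.primeFactors.card := by rw [Finset.prod_const]
    _ ≤ (C * t) ^ K := Nat.pow_le_pow_right (Nat.mul_pos hC1 ht) h2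

/-- large divisors of `U (6 A)` have large prime factors -/
theorem exists_big_prime {P Q : ℤ} (h : Good P Q) (K : ℕ) :
    ∃ A0 : ℕ, ∀ A : ℕ, A0 ≤ A → ∀ R : ℤ, R ∣ U P Q (6 * A) → 2 ^ (A - 1) ≤ R →
      ∃ q, q.Prime ∧ K < q ∧ (q : ℤ) ∣ R := by
  obtain ⟨C, hC1, hC⟩ := ppart_le' h K
  have hlim : Tendsto (fun n : ℕ => ((n : ℝ) ^ K) / (2 : ℝ) ^ n) atTop (nhds 0) :=
    tendsto_pow_const_div_const_pow_of_one_lt K (by norm_num)
  have hev : ∀ᶠ n : ℕ in atTop, ((n : ℝ) ^ K) / (2 : ℝ) ^ n < 1 / ((2 * (C * 6) ^ K : ℕ) : ℝ) :=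
    (tendsto_order.1 hlim).2 _ (by positivity)
  obtain ⟨A0, hA0⟩ := eventually_atTop.1 hev
  refine ⟨max A0 1, fun A hA R hR hRl => ?_⟩
  have hA1 : 1 ≤ A := (le_max_right _ _).trans hA
  by_contra hcon
  push Not at hcon
  have hRpos : 0 < R := lt_of_lt_of_le (by positivity) hRl
  obtain ⟨W, rfl⟩ := Int.eq_ofNat_of_zero_le hRpos.le
  have hW0 : W ≠ 0 := by
    rintro rfl; simp at hRpos
  have hs : ∀ q, q.Prime → q ∣ W → q ≤ K := by
    intro q hq hqd
    by_contra hlt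
    push Not at hlt
    exact hcon q hq hlt (by exact_mod_cast hqd)
  have h1 := smooth_le hC1 hC (6 * A) W (by omega) hW0 hR hs
  have h2 : 2 ^ (A - 1) ≤ W := by exact_mod_cast hRl
  have h4 : (C * (6 * A)) ^ K = (C * 6) ^ K * A ^ K := by
    rw [← mul_assoc, mul_pow]
  have h3 : 2 ^ A = 2 * 2 ^ (A - 1) := by
    rw [← pow_succ']; congr 1; omega
  have h5 : 2 ^ A ≤ (2 * (C * 6) ^ K) * A ^ K := by
    rw [h3]
    calc 2 * 2 ^ (A - 1) ≤ 2 * (C * (6 * A)) ^ K := Nat.mul_le_mul_left _ (h2.trans h1)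
      _ = (2 * (C * 6) ^ K) * A ^ K := by rw [h4]; ring
  have h6 := hA0 A ((le_max_left _ _).trans hA)
  have hA : (0 : ℝ) < ((2 * (C * 6) ^ K : ℕ) : ℝ) := by positivity
  rw [div_lt_div_iff₀ (by positivity) hA] at h6
  have h7 : ((2 ^ A : ℕ) : ℝ) ≤ (((2 * (C * 6) ^ K) * A ^ K : ℕ) : ℝ) := by exact_mod_cast h5
  push_cast at h7 h6
  linarith

/-- the chain argument -/
theorem chain (D : ℤ) (x : ℕ → ℤ) (hx : ∀ i, x (i + 1) = x i * (D * x i ^ 2 - 3)) (K M : ℕ)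
    (hK : 3 ≤ K) (hbig : ∀ i, ∃ q : ℕ, q.Prime ∧ K < q ∧ (q : ℤ) ∣ D * x i ^ 2 - 3) :
    ∃ S : Finset ℕ, S.card = M ∧ ∀ q ∈ S, q.Prime ∧ K < q ∧ (q : ℤ) ∣ x M := by
  choose f hf1 hf2 hf3 using hbig
  have hdvd : ∀ i j, i < j → (f i : ℤ) ∣ x j := by
    intro i j hij
    obtain ⟨e, rfl⟩ := Nat.exists_eq_add_of_lt hij
    induction e with
    | zero => rw [add_zero, hx]; exact (hf3 i).mul_left _
    | succ e ih =>
      have e1 : i + (e + 1) + 1 = (i + e + 1) + 1 := by ring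
      rw [e1, hx]
      exact (ih (by omega)).mul_right _
  have hinj : ∀ i j, i < j → f i ≠ f j := by
    intro i j hij heq
    have h1 := hf3 j
    rw [← heq] at h1
    have h2 := hdvd i j hij
    have h3 : (f i : ℤ) ∣ 3 := by
      have h4 : (f i : ℤ) ∣ D * x j ^ 2 := (h2.pow (by norm_num : (2:ℕ) ≠ 0) |>.mul_left D)
      have := dvd_sub h4 h1
      have e : D * x j ^ 2 - (D * x j ^ 2 - 3) = 3 := by ring
      rwa [e] at this
    have h5 : f i ∣ 3 := by exact_mod_cast h3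
    have := Nat.le_of_dvd (by norm_num) h5
    have := hf2 i
    omega
  have hinj' : Function.Injective f := by
    intro i j hij
    rcases lt_trichotomy i j with h | h | h
    · exact absurd hij (hinj i j h)
    · exact h
    · exact absurd hij.symm (hinj j i h)
  refine ⟨(range M).image f, ?_, ?_⟩
  · rw [card_image_of_injective _ hinj', card_range]
  · intro q hq
    obtain ⟨i, hi, rfl⟩ := mem_image.1 hq
    exact ⟨hf1 i, hf2 i, hdvd i M (mem_range.1 hi)⟩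

end Pool.Agent.H59.UnitSeq
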