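import Mathlib
import Pool.Prelude.Def_F_09379136
import Pool.Agent.H59.UnitSeq.B

/-!
`v₀` tends to infinity along unit recurrence sequences.
-/

namespace Pool.Agent.H59.UnitSeq

open Finset Filter

theorem U_growth {P : ℤ} (hP : 1 ≤ P) (j : ℕ) :
    (2 : ℤ) ^ j ≤ U P (-1) (2 * j + 1) ∧ 0 ≤ U P (-1) (2 * j) := by
  induction j with
  | zero => simp [U]
  | succ j ih =>
    have e1 : 2 * (j + 1) + 1 = (2 * j + 1) + 2 := by ring
    have e2 : 2 * (j + 1) = 2 * j + 2 := by ring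
    have e3 : 2 * j + 1 + 1 = 2 * j + 2 := by ring
    have hpos : (0 : ℤ) < 2 ^ j := by positivity
    rw [e1, e2, U_rec P (-1) (2 * j + 1), e3, U_rec P (-1) (2 * j)]
    set a := U P (-1) (2 * j + 1) with ha
    set b := U P (-1) (2 * j) with hb
    have ha0 : 0 ≤ a := by linarith [ih.1]
    have h1 : a ≤ P * a := by nlinarith
    have h2 : 0 ≤ P * a - (-1) * b := by linarith [ih.2]
    have h3 : P * a - (-1) * b ≤ P * (P * a - (-1) * b) := by nlinarith
    refine ⟨?_, h2⟩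
    rw [pow_succ]
    linarith [ih.1, ih.2]

theorem V_growth {P : ℤ} (hP : 3 ≤ P) (n : ℕ) :
    V P 1 n ≤ V P 1 (n + 1) ∧ (2 : ℤ) ^ (n + 1) ≤ V P 1 (n + 1) := by
  induction n with
  | zero =>
    have h0 : V P 1 0 = 2 := by simp [V, U]
    have h1 : V P 1 (0 + 1) = P := by simp [V, U]; ring
    rw [h0, h1]
    constructor
    · linarith
    · norm_num; linarith
  | succ n ih =>
    have hpos : (0 : ℤ) < 2 ^ (n + 1) := by positivity
    have h1 : 3 * V P 1 (n + 1) ≤ P * V P 1 (n + 1) :=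
      mul_le_mul_of_nonneg_right hP (by linarith [ih.1, ih.2])
    have e : n + 1 + 1 = n + 2 := by ring
    rw [e, V_rec, pow_succ (2 : ℤ) (n + 1)]
    constructor <;> linarith [ih.1, ih.2]

/-- many large primes divide `u (b + 2 t) + u b`, `t = 3 ^ M w` -/
theorem many {P Q : ℤ} (h : Good P Q) (K M : ℕ) (hK : 3 ≤ K) :
    ∃ W0 : ℕ, ∀ w, W0 ≤ w → Odd w → ∃ S : Finset ℕ, S.card = M ∧ ∀ q ∈ S, q.Prime ∧ K < q ∧
      ∀ u : ℕ → ℤ, (∀ m, u (m + 2) = P * u (m + 1) - Q * u m) →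
        ∀ b, (q : ℤ) ∣ u (b + 2 * (3 ^ M * w)) + u b := by
  obtain ⟨A0, hA0⟩ := exists_big_prime h K
  refine ⟨max A0 1, fun w hw hodd => ?_⟩
  have hw1 : 1 ≤ w := (le_max_right _ _).trans hw
  have hwi : ∀ i : ℕ, max A0 1 ≤ 3 ^ i * w := fun i => hw.trans (Nat.le_mul_of_pos_left w (by positivity))
  rcases h with ⟨rfl, hP⟩ | ⟨rfl, hP⟩
  · -- Q = -1
    have hoddi : ∀ i : ℕ, Odd (3 ^ i * w) := fun i => (Odd.pow (by decide : Odd 3)).mul hodd
    have hrec : ∀ i, U P (-1) (3 ^ (i + 1) * w) = U P (-1) (3 ^ i * w) *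
        ((P ^ 2 + 4) * U P (-1) (3 ^ i * w) ^ 2 - 3) := by
      intro i
      have e : 3 ^ (i + 1) * w = 3 * (3 ^ i * w) := by ring
      rw [e, U_three_mul, (hoddi i).neg_one_pow]
      ring
    obtain ⟨S, hS1, hS2⟩ := chain (P ^ 2 + 4) (fun i => U P (-1) (3 ^ i * w)) hrec K M hK (by
      intro i
      apply hA0 (3 ^ i * w) ((le_max_left _ _).trans (hwi i))
      · have h1 : ((P ^ 2 + 4) * U P (-1) (3 ^ i * w) ^ 2 - 3) ∣ U P (-1) (3 ^ (i + 1) * w) :=
          ⟨U P (-1) (3 ^ i * w), by rw [hrec]; ring⟩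
        have e : 6 * (3 ^ i * w) = 2 * (3 ^ (i + 1) * w) := by ring
        rw [e]
        exact h1.trans (U_dvd_mul _ _ _ _)
      · obtain ⟨j, hj⟩ := hoddi i
        have h2 := (U_growth hP j).1
        rw [hj]
        have e : 2 * j + 1 - 1 = 2 * j := by omega
        rw [e, pow_mul']
        have hpos : (0 : ℤ) < 2 ^ j := by positivity
        have h3 : ((2 : ℤ) ^ j) ^ 2 ≤ U P (-1) (2 * j + 1) ^ 2 := by
          apply pow_le_pow_left₀ hpos.le h2
        have h4 : (1 : ℤ) ≤ (2 ^ j) ^ 2 := one_le_pow₀ (by linarith [Int.add_one_le_iff.2 hpos])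
        have h5 : 0 ≤ P ^ 2 * U P (-1) (2 * j + 1) ^ 2 := by positivity
        have h6 : (P ^ 2 + 4) * U P (-1) (2 * j + 1) ^ 2 - 3 =
          P ^ 2 * U P (-1) (2 * j + 1) ^ 2 + 4 * U P (-1) (2 * j + 1) ^ 2 - 3 := by ring
        rw [h6]
        linarith)
    refine ⟨S, hS1, fun q hq => ⟨(hS2 q hq).1, (hS2 q hq).2.1, fun u hu b => ?_⟩⟩
    have h7 := sub_eq_U hu (3 ^ M * w) b
    rw [(hoddi M).neg_one_pow] at h7
    have h8 : u (b + 2 * (3 ^ M * w)) + u b = U P (-1) (3 ^ M * w) *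
        (2 * u (b + 3 ^ M * w + 1) - P * u (b + 3 ^ M * w)) := by
      rw [← h7]; ring
    rw [h8]
    exact (hS2 q hq).2.2.mul_right _
  · -- Q = 1
    have hrec : ∀ i, V P 1 (3 ^ (i + 1) * w) = V P 1 (3 ^ i * w) *
        (1 * V P 1 (3 ^ i * w) ^ 2 - 3) := by
      intro i
      have e : 3 ^ (i + 1) * w = 3 * (3 ^ i * w) := by ring
      rw [e, V_three_mul, one_pow]
      ring
    obtain ⟨S, hS1, hS2⟩ := chain 1 (fun i => V P 1 (3 ^ i * w)) hrec K M hK (by
      intro i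
      apply hA0 (3 ^ i * w) ((le_max_left _ _).trans (hwi i))
      · have h1 : (1 * V P 1 (3 ^ i * w) ^ 2 - 3) ∣ V P 1 (3 ^ (i + 1) * w) :=
          ⟨V P 1 (3 ^ i * w), by rw [hrec]; ring⟩
        have e : 6 * (3 ^ i * w) = 2 * (3 ^ (i + 1) * w) := by ring
        rw [e, U_two_mul]
        exact h1.trans (dvd_mul_left _ _)
      · have hA1 : 1 ≤ 3 ^ i * w := (le_max_right _ _).trans (hwi i)
        obtain ⟨j, hj⟩ := Nat.exists_eq_add_of_le' hA1
        rw [hj]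
        have h2 := (V_growth hP j).2
        have e : j + 1 - 1 = j := by omega
        rw [e]
        have hpos : (1 : ℤ) ≤ 2 ^ j := one_le_pow₀ (by norm_num)
        rw [pow_succ] at h2
        nlinarith)
    refine ⟨S, hS1, fun q hq => ⟨(hS2 q hq).1, (hS2 q hq).2.1, fun u hu b => ?_⟩⟩
    rw [add_eq_V hu]
    exact (hS2 q hq).2.2.mul_right _

open N129f076f in
theorem le_v_of_primes {n k : ℕ} (S : Finset ℕ) (hnk : n + k ≠ 0)
    (hS : ∀ q ∈ S, q.Prime ∧ k < q ∧ q ∣ n + k) : S.card ≤ v n k := by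
  apply card_le_card
  intro q hq
  obtain ⟨h1, h2, h3⟩ := hS q hq
  rw [mem_filter, Nat.mem_primeFactors]
  refine ⟨⟨h1, h3, hnk⟩, ?_⟩
  intro i hi hqi
  rw [mem_range] at hi
  have h4 := Nat.dvd_sub h3 hqi
  have h5 : n + k - (n + i) = k - i := by omega
  rw [h5] at h4
  have := Nat.le_of_dvd (by omega) h4
  omega

open N129f076f in
theorem main {P Q : ℤ} (h : Good P Q) (u : ℕ → ℤ)
    (hu : ∀ m, u (m + 2) = P * u (m + 1) - Q * u m) (hlim : Tendsto u atTop atTop) (d : ℤ) :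
    Tendsto (fun m : ℕ => v₀ (u m + d).toNat) atTop (nhds ⊤) := by
  rw [ENat.tendsto_nhds_top_iff_natCast_lt]
  intro M
  obtain ⟨b0, hb0⟩ := eventually_atTop.1 (hlim.eventually (eventually_gt_atTop (d.natAbs : ℤ)))
  set B := 3 ^ (M + 1) with hB
  have hBpos : 0 < B := by positivity
  set K := (∑ b ∈ range (b0 + 4 * B), (u b - d).natAbs) + 3 with hK
  obtain ⟨W0, hW0⟩ := many h K (M + 1) (by omega)
  filter_upwards [eventually_ge_atTop (b0 + 2 * B + 4 * B * W0)] with m hm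
  set w := (m - 2 * B - b0) / (4 * B) with hw
  set b := b0 + (m - 2 * B - b0) % (4 * B) with hb
  have h4B : 0 < 4 * B := by omega
  have hmod := Nat.mod_add_div (m - 2 * B - b0) (4 * B)
  have hmlt := Nat.mod_lt (m - 2 * B - b0) h4B
  have hmb : m = b + 2 * (B * (2 * w + 1)) := by
    rw [← hw] at hmod
    have e : 2 * (B * (2 * w + 1)) = 4 * B * w + 2 * B := by ring
    rw [e]
    omega
  have hwW : W0 ≤ w := by
    rw [hw, Nat.le_div_iff_mul_le h4B]
    have : W0 * (4 * B) = 4 * B * W0 := by ring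
    omega
  obtain ⟨S, hScard, hS⟩ := hW0 (2 * w + 1) (by omega) ⟨w, rfl⟩
  have hblt : b < b0 + 4 * B := by omega
  have hub : (d.natAbs : ℤ) < u b := hb0 b (by omega)
  have hum : (d.natAbs : ℤ) < u m := hb0 m (by omega)
  set n := (u m + d).toNat with hn
  set k := (u b - d).toNat with hk
  have hn' : (n : ℤ) = u m + d := by rw [hn]; apply Int.toNat_of_nonneg; omega
  have hk' : (k : ℤ) = u b - d := by rw [hk]; apply Int.toNat_of_nonneg; omega
  have hsum : ((n + k : ℕ) : ℤ) = u (b + 2 * (3 ^ (M + 1) * (2 * w + 1))) + u b := by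
    push_cast
    rw [hn', hk', ← hB, ← hmb]
    ring
  have hkK : k < K := by
    have h1 : (u b - d).natAbs ≤ ∑ b ∈ range (b0 + 4 * B), (u b - d).natAbs :=
      single_le_sum (f := fun b => (u b - d).natAbs) (fun _ _ => Nat.zero_le _) (mem_range.2 hblt)
    omega
  have hmain : S.card ≤ v n k := by
    apply le_v_of_primes S
    · omega
    · intro q hq
      obtain ⟨h1, h2, h3⟩ := hS q hq
      refine ⟨h1, by omega, ?_⟩
      have h4 := h3 u hu b
      rw [← hsum] at h4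
      exact_mod_cast h4
  rw [hScard] at hmain
  have h2 : ((v n k : ℕ) : ℕ∞) ≤ v₀ n := le_iSup (fun k => ((v n k : ℕ) : ℕ∞)) k
  calc (M : ℕ∞) < ((M + 1 : ℕ) : ℕ∞) := by exact_mod_cast Nat.lt_succ_self M
    _ ≤ ((v n k : ℕ) : ℕ∞) := by exact_mod_cast hmain
    _ ≤ v₀ n := h2

end Pool.Agent.H59.UnitSeq
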